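import Mathlib
import Pool.Agent.Helper601.PartA3
import Pool.Agent.Helper601.Pairs

set_option autoImplicit false

namespace Pool.Agent.Results.MP_9a49ed_nt.OrderD4

open Finset Pool.Agent.Helper601

/-- `m` lies in `F_k`: some set of at least one and at most `k` positive integers with largest
element `m` has factorials whose product is a perfect square. -/
def InF (k m : ℕ) : Prop :=
  ∃ s : Finset ℕ, 1 ≤ s.card ∧ s.card ≤ k ∧ m ∈ s ∧ (∀ a ∈ s, 1 ≤ a ∧ a ≤ m) ∧
    IsSquare (∏ a ∈ s, a.factorial)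

/-- `m` lies in `D_k = F_k \ F_{k-1}`. -/
def InD (k m : ℕ) : Prop := InF k m ∧ ¬ InF (k - 1) m

open Classical in
/-- the counting function `D_k(n)` -/
noncomputable def countD (k n : ℕ) : ℕ := ((Finset.Icc 1 n).filter (fun m => InD k m)).card

/-- Every representation of length at most three has block form with `y = y' = a`. -/
theorem rep_of_inF {m : ℕ} (h : InF 3 m) (hnp : ¬ IsSquare m.factorial) :
    ∃ b c : ℕ, Rep m b c c c := by
  obtain ⟨s, h1, h2, h3, h4, h5⟩ := h
  have hcard : (s.erase m).card = s.card - 1 := Finset.card_erase_of_mem h3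
  have hprod : ∏ a ∈ s, a.factorial = m.factorial * ∏ a ∈ s.erase m, a.factorial :=
    (Finset.mul_prod_erase s _ h3).symm
  rw [hprod] at h5
  have hlt : ∀ a ∈ s.erase m, a < m := by
    intro a ha
    rw [Finset.mem_erase] at ha
    exact lt_of_le_of_ne (h4 a ha.2).2 ha.1
  have hc : (s.erase m).card = 0 ∨ (s.erase m).card = 1 ∨ (s.erase m).card = 2 := by omega
  rcases hc with hc | hc | hc
  · rw [Finset.card_eq_zero] at hc
    rw [hc, Finset.prod_empty, mul_one] at h5
    exact absurd h5 hnp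
  · rw [Finset.card_eq_one] at hc
    obtain ⟨b, hb⟩ := hc
    rw [hb, Finset.prod_singleton] at h5
    have hbm : b < m := hlt b (by rw [hb]; exact Finset.mem_singleton_self b)
    refine ⟨b, 0, le_rfl, le_rfl, Nat.zero_le _, hbm, ?_⟩
    simpa using h5
  · rw [Finset.card_eq_two] at hc
    obtain ⟨b, c, hbc, hb⟩ := hc
    rw [hb, Finset.prod_pair hbc] at h5
    have hbm : b < m := hlt b (by rw [hb]; simp)
    have hcm : c < m := hlt c (by rw [hb]; simp)
    rcases lt_or_gt_of_ne hbc with h | h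
    · refine ⟨c, b, le_rfl, le_rfl, h.le, hcm, ?_⟩
      obtain ⟨r, hr⟩ := h5
      refine ⟨r * b.factorial, ?_⟩
      calc m.factorial * c.factorial * b.factorial * b.factorial * b.factorial
          = (m.factorial * (b.factorial * c.factorial)) * (b.factorial * b.factorial) := by ring
        _ = _ := by rw [hr]; ring
    · refine ⟨b, c, le_rfl, le_rfl, h.le, hbm, ?_⟩
      obtain ⟨r, hr⟩ := h5
      refine ⟨r * c.factorial, ?_⟩
      calc m.factorial * b.factorial * c.factorial * c.factorial * c.factorial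
          = (m.factorial * (b.factorial * c.factorial)) * (c.factorial * c.factorial) := by ring
        _ = _ := by rw [hr]; ring

/-- Multiples `4 p k` of a large prime lie in `D_4`. -/
theorem inD_four : ∃ m₀ : ℕ, 2 ≤ m₀ ∧ ∀ p k : ℕ, m₀ ≤ 4 * (p * k) → p.Prime → 2 ≤ p * k →
    1 ≤ k → ((4 * (p * k) : ℕ) : ℝ) ^ (7 / 10 : ℝ) ≤ p → InD 4 (4 * (p * k)) := by
  obtain ⟨m₀, hm₀, hA⟩ := partA (1 / 10) (by norm_num)
  obtain ⟨m₁, hm₁, hc⟩ := exists_const_le (1 / 5) 2 (by norm_num)
  refine ⟨m₀ + m₁, by omega, ?_⟩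
  intro p k hm hp hpk hk hbig
  set m := 4 * (p * k) with hmdef
  have hm0 : (0 : ℝ) < m := by exact_mod_cast (by omega : 0 < m)
  have hm1 : (1 : ℝ) ≤ m := by exact_mod_cast (by omega : 1 ≤ m)
  have hpr : (0 : ℝ) < p := by exact_mod_cast hp.pos
  -- p ^ 2 > m
  have hp2 : m < p ^ 2 := by
    have h1 : (m : ℝ) ^ (7 / 10 : ℝ) * (m : ℝ) ^ (7 / 10 : ℝ) ≤ (p : ℝ) * p :=
      mul_le_mul hbig hbig (by positivity) hpr.le
    rw [← Real.rpow_add hm0] at h1
    have h2 : (m : ℝ) ^ (7 / 10 + 7 / 10 : ℝ) = m * (m : ℝ) ^ (2 / 5 : ℝ) := by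
      rw [show (7 / 10 + 7 / 10 : ℝ) = 1 + 2 / 5 by norm_num, Real.rpow_add hm0, Real.rpow_one]
    have h3 : (2 : ℝ) ≤ (m : ℝ) ^ (2 / 5 : ℝ) := by
      refine (hc m (by omega)).trans ?_
      exact Real.rpow_le_rpow_of_exponent_le hm1 (by norm_num)
    rw [h2] at h1
    have h4 : (m : ℝ) < (p : ℝ) ^ 2 := by nlinarith
    exact_mod_cast h4
  have hpm : m / p = 4 * k := by
    rw [hmdef, show 4 * (p * k) = p * (4 * k) by ring]
    exact Nat.mul_div_cancel_left _ hp.pos
  constructor
  · -- length four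
    refine ⟨{m, m - 1, p * k, p * k - 1}, ?_, ?_, ?_, ?_, ?_⟩
    · exact Finset.card_pos.2 ⟨m, by simp⟩
    · exact Finset.card_le_four
    · simp
    · intro a ha
      simp only [Finset.mem_insert, Finset.mem_singleton] at ha
      rcases ha with rfl | rfl | rfl | rfl <;> constructor <;> omega
    · have e1 : m ∉ ({m - 1, p * k, p * k - 1} : Finset ℕ) := by
        simp only [Finset.mem_insert, Finset.mem_singleton, not_or]
        refine ⟨by omega, by omega, by omega⟩
      have e2 : m - 1 ∉ ({p * k, p * k - 1} : Finset ℕ) := by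
        simp only [Finset.mem_insert, Finset.mem_singleton, not_or]
        refine ⟨by omega, by omega⟩
      have e3 : p * k ∉ ({p * k - 1} : Finset ℕ) := by
        simp only [Finset.mem_singleton]
        omega
      rw [Finset.prod_insert e1, Finset.prod_insert e2, Finset.prod_insert e3,
        Finset.prod_singleton]
      have f1 : m.factorial = m * (m - 1).factorial := (Nat.mul_factorial_pred (by omega)).symm
      have f2 : (p * k).factorial = (p * k) * (p * k - 1).factorial :=
        (Nat.mul_factorial_pred (by omega)).symm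
      refine ⟨2 * (p * k) * (m - 1).factorial * (p * k - 1).factorial, ?_⟩
      rw [f1, f2]
      calc m * (m - 1).factorial * ((m - 1).factorial * (p * k * (p * k - 1).factorial *
            (p * k - 1).factorial))
          = m * (p * k) * ((m - 1).factorial * (m - 1).factorial *
            ((p * k - 1).factorial * (p * k - 1).factorial)) := by ring
        _ = _ := by rw [hmdef]; ring
  · -- no shorter representation
    intro hF
    have hnp : ¬ IsSquare m.factorial := by
      intro hsq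
      obtain ⟨q, hq1, hq2, hq3⟩ := Nat.exists_prime_lt_and_le_two_mul (m / 2) (by omega)
      have hqm : q ≤ m := by omega
      have hmq : m < 2 * q := by omega
      have hq4 : m < q ^ 2 := by
        have := hq1.two_le
        nlinarith
      have h3 := even_factorization_of_isSquare hsq q
      rw [factorization_eq_of_sq m q hq1 hq4] at h3
      have h4 : m / q = 1 := by
        apply Nat.div_eq_of_lt_le
        · omega
        · omega
      rw [h4] at h3
      exact absurd h3 (by decide)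
    obtain ⟨b, c, hR⟩ := rep_of_inF hF hnp
    obtain ⟨ht, -, ha⟩ := hA m (by omega) b c c c hR
    have hpt : ((m - b : ℕ) : ℝ) < p := by
      refine lt_of_lt_of_le ht (le_trans ?_ hbig)
      exact Real.rpow_le_rpow_of_exponent_le hm1 (by norm_num)
    have hpa : (c : ℝ) < p := by
      refine lt_of_lt_of_le ha (le_trans ?_ hbig)
      exact Real.rpow_le_rpow_of_exponent_le hm1 (by norm_num)
    have hpt' : m - b < p := by exact_mod_cast hpt
    have hpa' : c < p := by exact_mod_cast hpa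
    have h1 := rep_large hR hp hp2 hpa' hpt'.le (by omega)
    obtain ⟨-, -, -, hbm, -⟩ := hR
    have h2 : b / p < m / p := by
      rw [hpm, Nat.div_lt_iff_lt_mul hp.pos]
      calc b < m := hbm
        _ = 4 * k * p := by rw [hmdef]; ring
    omega

/-- Erdos and Graham asked for the order of growth of `D_4(n)`: it is linear. -/
theorem result : ∃ c : ℝ, 0 < c ∧ ∃ N : ℕ, ∀ n : ℕ, N ≤ n →
    c * (n : ℝ) ≤ (countD 4 n : ℝ) ∧ (countD 4 n : ℝ) ≤ n := by
  classical
  obtain ⟨m₀, hm₀, hD⟩ := inD_four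
  obtain ⟨x₀, hx₀, hcard⟩ := pairSet_card_ge (1 / 10) (by norm_num) (by norm_num)
  obtain ⟨x₁, hx₁, hc1⟩ := exists_const_le (1 / 10) ((m₀ : ℝ) + 100) (by norm_num)
  refine ⟨1 / 1000, by norm_num, 4 * (x₀ + x₁ + m₀ + 10), ?_⟩
  intro n hn
  constructor
  · set x := n / 4 with hx
    have hxx : x₀ + x₁ + m₀ + 10 ≤ x := by omega
    have hx2 : (10 : ℝ) ≤ x := by exact_mod_cast (by omega : 10 ≤ x)
    have hxpos : (0 : ℝ) < x := by linarith
    have hlogx : 0 < Real.log x := Real.log_pos (by linarith)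
    set Y := ⌊(x : ℝ) ^ (1 / 10 : ℝ)⌋₊ with hY
    have hYr : (Y : ℝ) ≤ (x : ℝ) ^ (1 / 10 : ℝ) := Nat.floor_le (by positivity)
    have hYlt : (x : ℝ) ^ (1 / 10 : ℝ) < Y + 1 := Nat.lt_floor_add_one _
    have hc1x := hc1 x (by omega)
    have hY1 : 1 ≤ Y := by
      rw [hY]
      apply Nat.le_floor
      have : (0 : ℝ) ≤ m₀ := Nat.cast_nonneg _
      push_cast
      linarith
    set U := Finset.Icc 1 Y with hU
    have hUb : ∀ u ∈ U, 1 ≤ u ∧ (u : ℝ) ≤ (x : ℝ) ^ (1 / 10 : ℝ) := by
      intro u hu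
      rw [hU, Finset.mem_Icc] at hu
      refine ⟨hu.1, le_trans ?_ hYr⟩
      exact_mod_cast hu.2
    have h1 := hcard x U (by omega) hUb
    -- harmonic sum lower bound
    have h2 : Real.log ((Y : ℝ) + 1) ≤ ∑ u ∈ U, (1 : ℝ) / u := by
      have h := log_add_one_le_harmonic Y
      rw [harmonic_eq_sum_Icc] at h
      push_cast at h
      simpa [one_div, hU] using h
    have h3 : (1 / 10 : ℝ) * Real.log x ≤ ∑ u ∈ U, (1 : ℝ) / u := by
      refine le_trans ?_ h2
      rw [← Real.log_rpow hxpos]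
      exact Real.log_le_log (by positivity) hYlt.le
    have h4 : (x : ℝ) / 50 ≤ ((pairSet U x).card : ℝ) := by
      refine le_trans ?_ h1
      have h5 : (1 / 10 : ℝ) * Real.log x * ((x : ℝ) / (5 * Real.log x)) = (x : ℝ) / 50 := by
        field_simp
        norm_num
      rw [← h5]
      exact mul_le_mul_of_nonneg_right h3 (by positivity)
    -- injection into D_4
    have hYY : 2 * Y * Y ≤ x := by
      have e1 : (2 : ℝ) * Y * Y ≤ x := by
        have e2 : (Y : ℝ) * Y ≤ (x : ℝ) ^ (1 / 10 : ℝ) * (x : ℝ) ^ (1 / 10 : ℝ) :=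
          mul_le_mul hYr hYr (Nat.cast_nonneg _) (by positivity)
        rw [← Real.rpow_add hxpos] at e2
        have e3 : (x : ℝ) = (x : ℝ) ^ (1 / 10 + 1 / 10 : ℝ) * (x : ℝ) ^ (8 / 10 : ℝ) := by
          rw [← Real.rpow_add hxpos]; norm_num
        have e4 : (2 : ℝ) ≤ (x : ℝ) ^ (8 / 10 : ℝ) := by
          have : (0 : ℝ) ≤ m₀ := Nat.cast_nonneg _
          have e5 : (x : ℝ) ^ (1 / 10 : ℝ) ≤ (x : ℝ) ^ (8 / 10 : ℝ) :=
            Real.rpow_le_rpow_of_exponent_le (by linarith) (by norm_num)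
          linarith
        have e6 : (0 : ℝ) < (x : ℝ) ^ (1 / 10 + 1 / 10 : ℝ) := by positivity
        nlinarith
      exact_mod_cast e1
    have hUY : ∀ u ∈ U, 1 ≤ u ∧ u ≤ Y := fun u hu => Finset.mem_Icc.1 hu
    have hinj := pairSet_injOn U x Y hUY hYY
    have h5 : (pairSet U x).card ≤ countD 4 n := by
      unfold countD
      apply Finset.card_le_card_of_injOn (fun q : Σ _ : ℕ, ℕ => 4 * (q.2 * q.1))
      · intro q hq
        have hq' : q ∈ pairSet U x := hq
        have hb := pairSet_bounds (fun u hu => (hUY u hu).1) hq'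
        have hm := mem_pairSet.1 hq'
        have hu1 := hUY _ hm.1
        have hq2 := hm.2.2.two_le
        have hpos : 2 ≤ q.2 * q.1 := by nlinarith
        rw [Finset.mem_coe, Finset.mem_filter, Finset.mem_Icc]
        have hlarge : m₀ ≤ 4 * (q.2 * q.1) := by
          have e1 : q.2 * (2 * q.1) = 2 * (q.2 * q.1) := by ring
          omega
        have g1 : 1 ≤ 4 * (q.2 * q.1) := by omega
        have g2 : 4 * (q.2 * q.1) ≤ n := by omega
        refine ⟨⟨g1, g2⟩, ?_⟩
        apply hD q.2 q.1 hlarge hm.2.2 hpos hu1.1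
        -- size of the prime
        have e1 : ((4 * (q.2 * q.1) : ℕ) : ℝ) ≤ 4 * x := by exact_mod_cast (by omega)
        have e2 : ((4 * (q.2 * q.1) : ℕ) : ℝ) ^ (7 / 10 : ℝ) ≤ (4 * (x : ℝ)) ^ (7 / 10 : ℝ) :=
          Real.rpow_le_rpow (Nat.cast_nonneg _) e1 (by norm_num)
        refine e2.trans ?_
        rw [Real.mul_rpow (by norm_num) hxpos.le]
        have e3 : (4 : ℝ) ^ (7 / 10 : ℝ) ≤ 4 := by
          have : (4 : ℝ) ^ (7 / 10 : ℝ) ≤ (4 : ℝ) ^ (1 : ℝ) :=
            Real.rpow_le_rpow_of_exponent_le (by norm_num) (by norm_num)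
          simpa using this
        have e4 : (x : ℝ) < (q.2 : ℝ) * (2 * q.1) := by exact_mod_cast hb.2
        have e5 : (q.1 : ℝ) ≤ (x : ℝ) ^ (1 / 10 : ℝ) := (hUb _ hm.1).2
        have e6 : (x : ℝ) ^ (1 / 10 : ℝ) * (x : ℝ) ^ (9 / 10 : ℝ) = x := by
          rw [← Real.rpow_add hxpos]; norm_num
        have e7 : (x : ℝ) ^ (7 / 10 : ℝ) * (x : ℝ) ^ (1 / 10 : ℝ) ≤ (x : ℝ) ^ (9 / 10 : ℝ) := by
          rw [← Real.rpow_add hxpos]
          exact Real.rpow_le_rpow_of_exponent_le (by linarith) (by norm_num)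
        have e8 : (8 : ℝ) ≤ (x : ℝ) ^ (1 / 10 : ℝ) := by
          have : (0 : ℝ) ≤ m₀ := Nat.cast_nonneg _
          linarith
        have hX1 : (0 : ℝ) < (x : ℝ) ^ (1 / 10 : ℝ) := by positivity
        have hX7 : (0 : ℝ) < (x : ℝ) ^ (7 / 10 : ℝ) := by positivity
        have hp0 : (0 : ℝ) < q.2 := by exact_mod_cast hm.2.2.pos
        have e9 : (x : ℝ) ^ (1 / 10 : ℝ) * (x : ℝ) ^ (9 / 10 : ℝ) <
            (x : ℝ) ^ (1 / 10 : ℝ) * (2 * (q.2 : ℝ)) := by
          rw [e6]
          calc (x : ℝ) < (q.2 : ℝ) * (2 * q.1) := e4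
            _ ≤ (q.2 : ℝ) * (2 * (x : ℝ) ^ (1 / 10 : ℝ)) := by
                apply mul_le_mul_of_nonneg_left _ hp0.le
                linarith
            _ = _ := by ring
        have e10 : (x : ℝ) ^ (9 / 10 : ℝ) < 2 * (q.2 : ℝ) := lt_of_mul_lt_mul_left e9 hX1.le
        nlinarith
      · intro q hq q' hq' heq
        apply hinj hq hq'
        simp only at heq ⊢
        omega
    have h6 : (n : ℝ) / 4 ≤ x + 1 := by
      have : n ≤ 4 * x + 4 := by omega
      have : (n : ℝ) ≤ 4 * x + 4 := by exact_mod_cast this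
      linarith
    have h7 : ((pairSet U x).card : ℝ) ≤ (countD 4 n : ℝ) := by exact_mod_cast h5
    linarith
  · unfold countD
    have h1 : ((Finset.Icc 1 n).filter (fun m => InD 4 m)).card ≤ n := by
      refine (Finset.card_filter_le _ _).trans ?_
      simp
    exact_mod_cast h1

end Pool.Agent.Results.MP_9a49ed_nt.OrderD4
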